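import Pool.Agent.MP_1037db_co.Q.S4
import Pool.Agent.MP_1037db_co.Q.F.S1C0
import Pool.Agent.MP_1037db_co.Q.F.S2C0
import Pool.Agent.MP_1037db_co.Q.F.S2C1
import Pool.Agent.MP_1037db_co.Q.F.S13P1
import Pool.Agent.MP_1037db_co.Q.F.S13C0
import Pool.Agent.MP_1037db_co.Q.F.S13C1
import Pool.Agent.MP_1037db_co.Q.F.S13C2
import Pool.Agent.MP_1037db_co.Q.F.S13C3
import Pool.Agent.MP_1037db_co.Q.F.S13C4
import Pool.Agent.MP_1037db_co.Q.F.S13C5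
import Pool.Agent.MP_1037db_co.Q.F.S13C6
import Pool.Agent.MP_1037db_co.Q.F.S13C7
import Pool.Agent.MP_1037db_co.Q.F.S13C8
import Pool.Agent.MP_1037db_co.Q.F.S13C9
import Pool.Agent.MP_1037db_co.Q.F.S13C10
import Pool.Agent.MP_1037db_co.Q.F.S13C11
import Pool.Agent.MP_1037db_co.Q.F.S13C12
import Pool.Agent.MP_1037db_co.Q.F.S13C13
import Pool.Agent.MP_1037db_co.Q.F.S13C14
import Pool.Agent.MP_1037db_co.Q.F.S13C15
import Pool.Agent.MP_1037db_co.Q.F.S13C16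
import Pool.Agent.MP_1037db_co.Q.F.S13C17
import Pool.Agent.MP_1037db_co.Q.F.S13C18
import Pool.Agent.MP_1037db_co.Q.F.S13C19
import Pool.Agent.MP_1037db_co.Q.F.S13C20
import Pool.Agent.MP_1037db_co.Q.F.S13C21
import Pool.Agent.MP_1037db_co.Q.F.S13C22
import Pool.Agent.MP_1037db_co.Q.F.S13C23
import Pool.Agent.MP_1037db_co.Q.F.S13C24
import Pool.Agent.MP_1037db_co.Q.F.S13C25
import Pool.Agent.MP_1037db_co.Q.F.S20C0
import Pool.Agent.MP_1037db_co.Q.F.S20C1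

namespace Pool.Agent.MP_1037db_co.Q.F

open LP PT.Kf

set_option linter.defProp false
set_option maxRecDepth 100000

noncomputable section

theorem tab1 : tab FA FB D1 R1 5 = true := by decide +kernel

theorem seg1 : Seg ⟨FA, FB, FT, 72571, 10062, 40829, geo_ok⟩ 10062 9429 0 2200 := fun _ E β ht h hb h' => by
  letI : Geo := ⟨FA, FB, FT, 72571, 10062, 40829, geo_ok⟩
  have c : rd R1 35 = 9429 := by decide +kernel
  have g := tc_re (E := E) tab1 (ro := 10062) (C0 := 9429) (by decide +kernel) ht hb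
  have s : St (E.re tab1) β 9429 H1_0 (0 * 32) _ X1_0 _ _ _ _ _ _ :=
    g.start H1_0 9429 0 (by decide +kernel) h h'
  have s : St _ β _ _ (125 * 32) _ _ _ _ _ _ _ _ := s.ru g okX1_0 p1_0_0
  have s : St _ β _ _ (182 * 32) _ _ _ _ _ _ _ _ := s.ru g okX1_0 p1_1_0
  have s : St _ β _ _ (182 * 32) _ _ _ _ _ _ _ _ := s.rnz (i := 5824) g r1_1_10 ⟨by norm_num, c⟩
  have s : St _ β _ _ (182 * 32) _ _ _ _ _ _ _ _ := s.rnz (i := 5824) g r1_1_11 ⟨by norm_num, c⟩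
  have s : St _ β _ _ (182 * 32) _ _ _ _ _ _ _ _ := s.rnz (i := 5824) g r1_1_12 ⟨by norm_num, c⟩
  have s : St _ β _ _ (182 * 32) _ _ _ _ _ _ _ _ := s.rnz (i := 5824) g r1_2_0 ⟨by norm_num, c⟩
  have s : St _ β _ _ (182 * 32) _ _ _ _ _ _ _ _ := s.rnz (i := 5824) g r1_2_1 ⟨by norm_num, c⟩
  have s : St _ β _ _ (182 * 32) _ _ _ _ _ _ _ _ := s.rnz (i := 5824) g r1_2_2 ⟨by norm_num, c⟩
  have s : St _ β _ _ (182 * 32) _ _ _ _ _ _ _ _ := s.rnz (i := 5824) g r1_2_3 ⟨by norm_num, c⟩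
  have s : St _ β _ _ (182 * 32) _ _ _ _ _ _ _ _ := s.rnz (i := 5824) g r1_2_4 ⟨by norm_num, c⟩
  have s : St _ β _ _ (182 * 32) _ _ _ _ _ _ _ _ := s.rnz (i := 5824) g r1_2_5 ⟨by norm_num, c⟩
  have s : St _ β _ _ (182 * 32) _ _ _ _ _ _ _ _ := s.rnz (i := 5824) g r1_2_6 ⟨by norm_num, c⟩
  have s : St _ β _ _ (182 * 32) _ _ _ _ _ _ _ _ := s.rnz (i := 5824) g r1_3_0 ⟨by norm_num, c⟩
  have s : St _ β _ _ (182 * 32) _ _ _ _ _ _ _ _ := s.rnz (i := 5824) g r1_3_1 ⟨by norm_num, c⟩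
  have s : St _ β _ _ (182 * 32) _ _ _ _ _ _ _ _ := s.rnz (i := 5824) g r1_3_2 ⟨by norm_num, c⟩
  have s : St _ β _ _ (182 * 32) _ _ _ _ _ _ _ _ := s.rnz (i := 5824) g r1_3_3 ⟨by norm_num, c⟩
  have s : St _ β _ _ (182 * 32) _ _ _ _ _ _ _ _ := s.rnz (i := 5824) g r1_3_4 ⟨by norm_num, c⟩
  have s : St _ β _ _ (182 * 32) _ _ _ _ _ _ _ _ := s.rnz (i := 5824) g r1_3_5 ⟨by norm_num, c⟩
  have s : St _ β _ _ (182 * 32) _ _ _ _ _ _ _ _ := s.rnz (i := 5824) g r1_3_6 ⟨by norm_num, c⟩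
  have s : St _ β _ _ (182 * 32) _ _ _ _ _ _ _ _ := s.rnz (i := 5824) g r1_4_0 ⟨by norm_num, c⟩
  have s : St _ β _ _ (182 * 32) _ _ _ _ _ _ _ _ := s.rnz (i := 5824) g r1_4_1 ⟨by norm_num, c⟩
  exact s.out g (by decide +kernel)

theorem tab2 : tab FA FB D2 R2 8 = true := by decide +kernel

theorem seg2 : Seg ⟨FA, FB, FT, 72571, 10062, 40829, geo_ok⟩ 10062 9429 2200 3000 := fun _ E β ht h hb h' => by
  letI : Geo := ⟨FA, FB, FT, 72571, 10062, 40829, geo_ok⟩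
  have c : rd R2 35 = 9429 := by decide +kernel
  have g := tc_re (E := E) tab2 (ro := 10062) (C0 := 9429) (by decide +kernel) ht hb
  have s : St (E.re tab2) β 9429 H2_0 (0 * 32) _ X2_0 _ _ _ _ _ _ :=
    g.start H2_0 9429 1 (by decide +kernel) h h'
  have s : St _ β _ _ (131 * 32) _ _ _ _ _ _ _ _ := s.ru g okX2_0 p2_0_0
  have s : St _ β _ _ (232 * 32) _ _ _ _ _ _ _ _ := s.ru g okX2_0 p2_1_0
  have s : St _ β _ _ (312 * 32) _ _ _ _ _ _ _ _ := s.ru g okX2_0 p2_2_0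
  have s : St _ β _ _ (375 * 32) _ _ _ _ _ _ _ _ := s.ru g okX2_0 p2_3_0
  have s : St _ β _ _ (417 * 32) _ _ _ _ _ _ _ _ := s.ru g okX2_0 p2_4_0
  have s : St _ β _ _ (428 * 32) _ _ _ _ _ _ _ _ := s.ru g okX2_0 p2_5_0
  have s : St _ β _ _ (428 * 32) _ _ _ _ _ _ _ _ := s.rnz (i := 13696) g r2_5_7 ⟨by norm_num, c⟩
  have s : St _ β _ _ (428 * 32) _ _ _ _ _ _ _ _ := s.rnz (i := 13696) g r2_5_8 ⟨by norm_num, c⟩
  have s : St _ β _ _ (428 * 32) _ _ _ _ _ _ _ _ := s.rnz (i := 13696) g r2_5_9 ⟨by norm_num, c⟩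
  have s : St _ β _ _ (428 * 32) _ _ _ _ _ _ _ _ := s.rnz (i := 13696) g r2_5_10 ⟨by norm_num, c⟩
  have s : St _ β _ _ (428 * 32) _ _ _ _ _ _ _ _ := s.rnz (i := 13696) g r2_5_11 ⟨by norm_num, c⟩
  have s : St _ β _ _ (428 * 32) _ _ _ _ _ _ _ _ := s.rnz (i := 13696) g r2_6_0 ⟨by norm_num, c⟩
  have s : St _ β _ _ (428 * 32) _ _ _ _ _ _ _ _ := s.rnz (i := 13696) g r2_6_1 ⟨by norm_num, c⟩
  have s : St _ β _ _ (428 * 32) _ _ _ _ _ _ _ _ := s.rnz (i := 13696) g r2_6_2 ⟨by norm_num, c⟩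
  have s : St _ β _ _ (428 * 32) _ _ _ _ _ _ _ _ := s.rnz (i := 13696) g r2_6_3 ⟨by norm_num, c⟩
  have s : St _ β _ _ (428 * 32) _ _ _ _ _ _ _ _ := s.rnz (i := 13696) g r2_6_4 ⟨by norm_num, c⟩
  have s : St _ β _ _ (428 * 32) _ _ _ _ _ _ _ _ := s.rnz (i := 13696) g r2_6_5 ⟨by norm_num, c⟩
  have s : St _ β _ _ (428 * 32) _ _ _ _ _ _ _ _ := s.rnz (i := 13696) g r2_6_6 ⟨by norm_num, c⟩
  have s : St _ β _ _ (428 * 32) _ _ _ _ _ _ _ _ := s.rnz (i := 13696) g r2_6_7 ⟨by norm_num, c⟩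
  have s : St _ β _ _ (428 * 32) _ _ _ _ _ _ _ _ := s.rnz (i := 13696) g r2_7_0 ⟨by norm_num, c⟩
  have s : St _ β _ _ (428 * 32) _ _ _ _ _ _ _ _ := s.rnz (i := 13696) g r2_7_1 ⟨by norm_num, c⟩
  have s : St _ β _ _ (428 * 32) _ _ _ _ _ _ _ _ := s.rnz (i := 13696) g r2_7_2 ⟨by norm_num, c⟩
  have s : St _ β _ _ (428 * 32) _ _ _ _ _ _ _ _ := s.rnz (i := 13696) g r2_7_3 ⟨by norm_num, c⟩
  have s : St _ β _ _ (428 * 32) _ _ _ _ _ _ _ _ := s.rnz (i := 13696) g r2_7_4 ⟨by norm_num, c⟩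
  have s : St _ β _ _ (428 * 32) _ _ _ _ _ _ _ _ := s.rnz (i := 13696) g r2_7_5 ⟨by norm_num, c⟩
  have s : St _ β _ _ (428 * 32) _ _ _ _ _ _ _ _ := s.rnz (i := 13696) g r2_7_6 ⟨by norm_num, c⟩
  have s : St _ β _ _ (428 * 32) _ _ _ _ _ _ _ _ := s.rnz (i := 13696) g r2_8_0 ⟨by norm_num, c⟩
  have s : St _ β _ _ (428 * 32) _ _ _ _ _ _ _ _ := s.rnz (i := 13696) g r2_8_1 ⟨by norm_num, c⟩
  have s : St _ β _ _ (428 * 32) _ _ _ _ _ _ _ _ := s.rnz (i := 13696) g r2_8_2 ⟨by norm_num, c⟩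
  have s : St _ β _ _ (428 * 32) _ _ _ _ _ _ _ _ := s.rnz (i := 13696) g r2_8_3 ⟨by norm_num, c⟩
  have s : St _ β _ _ (428 * 32) _ _ _ _ _ _ _ _ := s.rnz (i := 13696) g r2_8_4 ⟨by norm_num, c⟩
  have s : St _ β _ _ (428 * 32) _ _ _ _ _ _ _ _ := s.rnz (i := 13696) g r2_8_5 ⟨by norm_num, c⟩
  have s : St _ β _ _ (428 * 32) _ _ _ _ _ _ _ _ := s.rnz (i := 13696) g r2_8_6 ⟨by norm_num, c⟩
  have s : St _ β _ _ (428 * 32) _ _ _ _ _ _ _ _ := s.rnz (i := 13696) g r2_9_0 ⟨by norm_num, c⟩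
  have s : St _ β _ _ (428 * 32) _ _ _ _ _ _ _ _ := s.rnz (i := 13696) g r2_9_1 ⟨by norm_num, c⟩
  have s : St _ β _ _ (428 * 32) _ _ _ _ _ _ _ _ := s.rnz (i := 13696) g r2_9_2 ⟨by norm_num, c⟩
  have s : St _ β _ _ (428 * 32) _ _ _ _ _ _ _ _ := s.rnz (i := 13696) g r2_9_3 ⟨by norm_num, c⟩
  have s : St _ β _ _ (428 * 32) _ _ _ _ _ _ _ _ := s.rnz (i := 13696) g r2_9_4 ⟨by norm_num, c⟩
  have s : St _ β _ _ (428 * 32) _ _ _ _ _ _ _ _ := s.rnz (i := 13696) g r2_9_5 ⟨by norm_num, c⟩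
  have s : St _ β _ _ (428 * 32) _ _ _ _ _ _ _ _ := s.rnz (i := 13696) g r2_9_6 ⟨by norm_num, c⟩
  exact s.out g (by decide +kernel)

theorem tab13 : tab FA FB D13 R13 10 = true := by decide +kernel

theorem seg13 : Seg ⟨FA, FB, FT, 72571, 10062, 40829, geo_ok⟩ 10062 9429 3000 7800 := fun _ E β ht h hb h' => by
  letI : Geo := ⟨FA, FB, FT, 72571, 10062, 40829, geo_ok⟩
  have c : rd R13 35 = 9429 := by decide +kernel
  have g := tc_re (E := E) tab13 (ro := 10062) (C0 := 9429) (by decide +kernel) ht hb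
  have s : St (E.re tab13) β 9429 H13_0 (0 * 32) _ X13_0 _ _ _ _ _ _ :=
    g.start H13_0 9429 1 (by decide +kernel) h h'
  have s : St _ β _ _ (153 * 32) _ _ _ _ _ _ _ _ := s.ru g okX13_0 p13_0_0
  have s : St _ β _ _ (248 * 32) _ _ _ _ _ _ _ _ := s.ru g okX13_0 p13_1_0
  have s : St _ β _ _ (326 * 32) _ _ _ _ _ _ _ _ := s.ru g okX13_0 p13_2_0
  have s : St _ β _ _ (399 * 32) _ _ _ _ _ _ _ _ := s.ru g okX13_0 p13_3_0
  have s : St _ β _ _ (457 * 32) _ _ _ _ _ _ _ _ := s.ru g okX13_0 p13_4_0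
  have s : St _ β _ _ (524 * 32) _ _ _ _ _ _ _ _ := s.ru g okX13_0 p13_5_0
  have s : St _ β _ _ (583 * 32) _ _ _ _ _ _ _ _ := s.ru g okX13_0 p13_6_0
  have s : St _ β _ _ (637 * 32) _ _ _ _ _ _ _ _ := s.ru g okX13_0 p13_7_0
  have s : St _ β _ _ (691 * 32) _ _ _ _ _ _ _ _ := s.ru g okX13_0 p13_8_0
  have s : St _ β _ _ (747 * 32) _ _ _ _ _ _ _ _ := s.ru g okX13_0 p13_9_0
  have s : St _ β _ _ (796 * 32) _ _ _ _ _ _ _ _ := s.ru g okX13_0 p13_10_0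
  have s : St _ β _ _ (851 * 32) _ _ _ _ _ _ _ _ := s.ru g okX13_0 p13_11_0
  have s : St _ β _ _ (896 * 32) _ _ _ _ _ _ _ _ := s.ru g okX13_0 p13_12_0
  have s : St _ β _ _ (939 * 32) _ _ _ _ _ _ _ _ := s.ru g okX13_0 p13_13_0
  have s : St _ β _ _ (979 * 32) _ _ _ _ _ _ _ _ := s.ru g okX13_0 p13_14_0
  have s : St _ β _ _ (1009 * 32) _ _ _ _ _ _ _ _ := s.ru g okX13_0 p13_15_0
  have s : St _ β _ _ (1036 * 32) _ _ _ _ _ _ _ _ := s.ru g okX13_0 p13_16_0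
  have s : St _ β _ _ (1064 * 32) _ _ _ _ _ _ _ _ := s.ru g okX13_0 p13_17_0
  have s : St _ β _ _ (1089 * 32) _ _ _ _ _ _ _ _ := s.ru g okX13_0 p13_18_0
  have s : St _ β _ _ (1115 * 32) _ _ _ _ _ _ _ _ := s.ru g okX13_0 p13_19_0
  have s : St _ β _ _ (1142 * 32) _ _ _ _ _ _ _ _ := s.ru g okX13_0 p13_20_0
  have s : St _ β _ _ (1160 * 32) _ _ _ _ _ _ _ _ := s.ru g okX13_0 p13_21_0
  have s : St _ β _ _ (1162 * 32) _ _ _ _ _ _ _ _ := s.ru g okX13_0 p13_22_0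
  have s : St _ β _ _ (1162 * 32) _ _ _ _ _ _ _ _ := s.rnz (i := 37184) g r13_22_1 ⟨by norm_num, c⟩
  have s : St _ β _ _ (1162 * 32) _ _ _ _ _ _ _ _ := s.rnz (i := 37184) g r13_22_2 ⟨by norm_num, c⟩
  have s : St _ β _ _ (1162 * 32) _ _ _ _ _ _ _ _ := s.rnz (i := 37184) g r13_22_3 ⟨by norm_num, c⟩
  have s : St _ β _ _ (1162 * 32) _ _ _ _ _ _ _ _ := s.rnz (i := 37184) g r13_22_4 ⟨by norm_num, c⟩
  have s : St _ β _ _ (1162 * 32) _ _ _ _ _ _ _ _ := s.rnz (i := 37184) g r13_22_5 ⟨by norm_num, c⟩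
  have s : St _ β _ _ (1162 * 32) _ _ _ _ _ _ _ _ := s.rnz (i := 37184) g r13_22_6 ⟨by norm_num, c⟩
  have s : St _ β _ _ (1162 * 32) _ _ _ _ _ _ _ _ := s.rnz (i := 37184) g r13_23_0 ⟨by norm_num, c⟩
  have s : St _ β _ _ (1162 * 32) _ _ _ _ _ _ _ _ := s.rnz (i := 37184) g r13_23_1 ⟨by norm_num, c⟩
  have s : St _ β _ _ (1162 * 32) _ _ _ _ _ _ _ _ := s.rnz (i := 37184) g r13_23_2 ⟨by norm_num, c⟩
  have s : St _ β _ _ (1162 * 32) _ _ _ _ _ _ _ _ := s.rnz (i := 37184) g r13_23_3 ⟨by norm_num, c⟩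
  have s : St _ β _ _ (1162 * 32) _ _ _ _ _ _ _ _ := s.rnz (i := 37184) g r13_23_4 ⟨by norm_num, c⟩
  have s : St _ β _ _ (1162 * 32) _ _ _ _ _ _ _ _ := s.rnz (i := 37184) g r13_23_5 ⟨by norm_num, c⟩
  have s : St _ β _ _ (1162 * 32) _ _ _ _ _ _ _ _ := s.rnz (i := 37184) g r13_23_6 ⟨by norm_num, c⟩
  have s : St _ β _ _ (1162 * 32) _ _ _ _ _ _ _ _ := s.rnz (i := 37184) g r13_24_0 ⟨by norm_num, c⟩
  have s : St _ β _ _ (1162 * 32) _ _ _ _ _ _ _ _ := s.rnz (i := 37184) g r13_24_1 ⟨by norm_num, c⟩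
  have s : St _ β _ _ (1162 * 32) _ _ _ _ _ _ _ _ := s.rnz (i := 37184) g r13_24_2 ⟨by norm_num, c⟩
  have s : St _ β _ _ (1162 * 32) _ _ _ _ _ _ _ _ := s.rnz (i := 37184) g r13_24_3 ⟨by norm_num, c⟩
  have s : St _ β _ _ (1162 * 32) _ _ _ _ _ _ _ _ := s.rnz (i := 37184) g r13_24_4 ⟨by norm_num, c⟩
  have s : St _ β _ _ (1162 * 32) _ _ _ _ _ _ _ _ := s.rnz (i := 37184) g r13_24_5 ⟨by norm_num, c⟩
  have s : St _ β _ _ (1162 * 32) _ _ _ _ _ _ _ _ := s.rnz (i := 37184) g r13_24_6 ⟨by norm_num, c⟩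
  have s : St _ β _ _ (1162 * 32) _ _ _ _ _ _ _ _ := s.rnz (i := 37184) g r13_25_0 ⟨by norm_num, c⟩
  have s : St _ β _ _ (1162 * 32) _ _ _ _ _ _ _ _ := s.rnz (i := 37184) g r13_25_1 ⟨by norm_num, c⟩
  have s : St _ β _ _ (1162 * 32) _ _ _ _ _ _ _ _ := s.rnz (i := 37184) g r13_25_2 ⟨by norm_num, c⟩
  have s : St _ β _ _ (1162 * 32) _ _ _ _ _ _ _ _ := s.rnz (i := 37184) g r13_25_3 ⟨by norm_num, c⟩
  have s : St _ β _ _ (1162 * 32) _ _ _ _ _ _ _ _ := s.rnz (i := 37184) g r13_25_4 ⟨by norm_num, c⟩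
  have s : St _ β _ _ (1162 * 32) _ _ _ _ _ _ _ _ := s.rnz (i := 37184) g r13_25_5 ⟨by norm_num, c⟩
  have s : St _ β _ _ (1162 * 32) _ _ _ _ _ _ _ _ := s.rnz (i := 37184) g r13_25_6 ⟨by norm_num, c⟩
  have s : St _ β _ _ (1162 * 32) _ _ _ _ _ _ _ _ := s.rnz (i := 37184) g r13_26_0 ⟨by norm_num, c⟩
  have s : St _ β _ _ (1162 * 32) _ _ _ _ _ _ _ _ := s.rnz (i := 37184) g r13_26_1 ⟨by norm_num, c⟩
  have s : St _ β _ _ (1239 * 32) _ _ _ _ _ _ _ _ := s.ru g okX13_35 p13_26_2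
  have s : St _ β _ _ (1318 * 32) _ _ _ _ _ _ _ _ := s.ru g okX13_35 p13_27_0
  have s : St _ β _ _ (1367 * 32) _ _ _ _ _ _ _ _ := s.ru g okX13_35 p13_28_0
  have s : St _ β _ _ (1407 * 32) _ _ _ _ _ _ _ _ := s.ru g okX13_35 p13_29_0
  have s : St _ β _ _ (1447 * 32) _ _ _ _ _ _ _ _ := s.ru g okX13_35 p13_30_0
  have s : St _ β _ _ (1482 * 32) _ _ _ _ _ _ _ _ := s.ru g okX13_35 p13_31_0
  have s : St _ β _ _ (1517 * 32) _ _ _ _ _ _ _ _ := s.ru g okX13_35 p13_32_0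
  have s : St _ β _ _ (1557 * 32) _ _ _ _ _ _ _ _ := s.ru g okX13_35 p13_33_0
  have s : St _ β _ _ (1595 * 32) _ _ _ _ _ _ _ _ := s.ru g okX13_35 p13_34_0
  have s : St _ β _ _ (1628 * 32) _ _ _ _ _ _ _ _ := s.ru g okX13_35 p13_35_0
  have s : St _ β _ _ (1663 * 32) _ _ _ _ _ _ _ _ := s.ru g okX13_35 p13_36_0
  have s : St _ β _ _ (1688 * 32) _ _ _ _ _ _ _ _ := s.ru g okX13_35 p13_37_0
  have s : St _ β _ _ (1715 * 32) _ _ _ _ _ _ _ _ := s.ru g okX13_35 p13_38_0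
  have s : St _ β _ _ (1739 * 32) _ _ _ _ _ _ _ _ := s.ru g okX13_35 p13_39_0
  have s : St _ β _ _ (1764 * 32) _ _ _ _ _ _ _ _ := s.ru g okX13_35 p13_40_0
  have s : St _ β _ _ (1788 * 32) _ _ _ _ _ _ _ _ := s.ru g okX13_35 p13_41_0
  have s : St _ β _ _ (1817 * 32) _ _ _ _ _ _ _ _ := s.ru g okX13_35 p13_42_0
  have s : St _ β _ _ (1839 * 32) _ _ _ _ _ _ _ _ := s.ru g okX13_35 p13_43_0
  have s : St _ β _ _ (1845 * 32) _ _ _ _ _ _ _ _ := s.ru g okX13_35 p13_44_0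
  have s : St _ β _ _ (1845 * 32) _ _ _ _ _ _ _ _ := s.rnz (i := 59040) g r13_44_3 ⟨by norm_num, c⟩
  have s : St _ β _ _ (1845 * 32) _ _ _ _ _ _ _ _ := s.rnz (i := 59040) g r13_44_4 ⟨by norm_num, c⟩
  have s : St _ β _ _ (1845 * 32) _ _ _ _ _ _ _ _ := s.rnz (i := 59040) g r13_44_5 ⟨by norm_num, c⟩
  have s : St _ β _ _ (1845 * 32) _ _ _ _ _ _ _ _ := s.rnz (i := 59040) g r13_44_6 ⟨by norm_num, c⟩
  have s : St _ β _ _ (1845 * 32) _ _ _ _ _ _ _ _ := s.rnz (i := 59040) g r13_44_7 ⟨by norm_num, c⟩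
  have s : St _ β _ _ (1845 * 32) _ _ _ _ _ _ _ _ := s.rnz (i := 59040) g r13_45_0 ⟨by norm_num, c⟩
  have s : St _ β _ _ (1845 * 32) _ _ _ _ _ _ _ _ := s.rnz (i := 59040) g r13_45_1 ⟨by norm_num, c⟩
  have s : St _ β _ _ (1845 * 32) _ _ _ _ _ _ _ _ := s.rnz (i := 59040) g r13_45_2 ⟨by norm_num, c⟩
  have s : St _ β _ _ (1845 * 32) _ _ _ _ _ _ _ _ := s.rnz (i := 59040) g r13_45_3 ⟨by norm_num, c⟩
  have s : St _ β _ _ (1845 * 32) _ _ _ _ _ _ _ _ := s.rnz (i := 59040) g r13_45_4 ⟨by norm_num, c⟩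
  have s : St _ β _ _ (1845 * 32) _ _ _ _ _ _ _ _ := s.rnz (i := 59040) g r13_45_5 ⟨by norm_num, c⟩
  have s : St _ β _ _ (1845 * 32) _ _ _ _ _ _ _ _ := s.rnz (i := 59040) g r13_45_6 ⟨by norm_num, c⟩
  have s : St _ β _ _ (1845 * 32) _ _ _ _ _ _ _ _ := s.rnz (i := 59040) g r13_46_0 ⟨by norm_num, c⟩
  have s : St _ β _ _ (1845 * 32) _ _ _ _ _ _ _ _ := s.rnz (i := 59040) g r13_46_1 ⟨by norm_num, c⟩
  have s : St _ β _ _ (1845 * 32) _ _ _ _ _ _ _ _ := s.rnz (i := 59040) g r13_46_2 ⟨by norm_num, c⟩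
  have s : St _ β _ _ (1845 * 32) _ _ _ _ _ _ _ _ := s.rnz (i := 59040) g r13_46_3 ⟨by norm_num, c⟩
  have s : St _ β _ _ (1845 * 32) _ _ _ _ _ _ _ _ := s.rnz (i := 59040) g r13_46_4 ⟨by norm_num, c⟩
  have s : St _ β _ _ (1845 * 32) _ _ _ _ _ _ _ _ := s.rnz (i := 59040) g r13_46_5 ⟨by norm_num, c⟩
  have s : St _ β _ _ (1845 * 32) _ _ _ _ _ _ _ _ := s.rnz (i := 59040) g r13_46_6 ⟨by norm_num, c⟩
  have s : St _ β _ _ (1845 * 32) _ _ _ _ _ _ _ _ := s.rnz (i := 59040) g r13_47_0 ⟨by norm_num, c⟩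
  have s : St _ β _ _ (1845 * 32) _ _ _ _ _ _ _ _ := s.rnz (i := 59040) g r13_47_1 ⟨by norm_num, c⟩
  have s : St _ β _ _ (1845 * 32) _ _ _ _ _ _ _ _ := s.rnz (i := 59040) g r13_47_2 ⟨by norm_num, c⟩
  have s : St _ β _ _ (1845 * 32) _ _ _ _ _ _ _ _ := s.rnz (i := 59040) g r13_47_3 ⟨by norm_num, c⟩
  have s : St _ β _ _ (1845 * 32) _ _ _ _ _ _ _ _ := s.rnz (i := 59040) g r13_47_4 ⟨by norm_num, c⟩
  have s : St _ β _ _ (1845 * 32) _ _ _ _ _ _ _ _ := s.rnz (i := 59040) g r13_47_5 ⟨by norm_num, c⟩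
  have s : St _ β _ _ (1845 * 32) _ _ _ _ _ _ _ _ := s.rnz (i := 59040) g r13_48_0 ⟨by norm_num, c⟩
  have s : St _ β _ _ (1927 * 32) _ _ _ _ _ _ _ _ := s.ru g okX13_69 p13_48_1
  have s : St _ β _ _ (1994 * 32) _ _ _ _ _ _ _ _ := s.ru g okX13_69 p13_49_0
  have s : St _ β _ _ (2046 * 32) _ _ _ _ _ _ _ _ := s.ru g okX13_69 p13_50_0
  have s : St _ β _ _ (2099 * 32) _ _ _ _ _ _ _ _ := s.ru g okX13_69 p13_51_0
  have s : St _ β _ _ (2145 * 32) _ _ _ _ _ _ _ _ := s.ru g okX13_69 p13_52_0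
  have s : St _ β _ _ (2184 * 32) _ _ _ _ _ _ _ _ := s.ru g okX13_69 p13_53_0
  have s : St _ β _ _ (2218 * 32) _ _ _ _ _ _ _ _ := s.ru g okX13_69 p13_54_0
  have s : St _ β _ _ (2244 * 32) _ _ _ _ _ _ _ _ := s.ru g okX13_69 p13_55_0
  have s : St _ β _ _ (2272 * 32) _ _ _ _ _ _ _ _ := s.ru g okX13_69 p13_56_0
  have s : St _ β _ _ (2286 * 32) _ _ _ _ _ _ _ _ := s.ru g okX13_69 p13_57_0
  have s : St _ β _ _ (2286 * 32) _ _ _ _ _ _ _ _ := s.rnz (i := 73152) g r13_57_6 ⟨by norm_num, c⟩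
  have s : St _ β _ _ (2286 * 32) _ _ _ _ _ _ _ _ := s.rnz (i := 73152) g r13_57_7 ⟨by norm_num, c⟩
  have s : St _ β _ _ (2286 * 32) _ _ _ _ _ _ _ _ := s.rnz (i := 73152) g r13_57_8 ⟨by norm_num, c⟩
  have s : St _ β _ _ (2286 * 32) _ _ _ _ _ _ _ _ := s.rnz (i := 73152) g r13_57_9 ⟨by norm_num, c⟩
  have s : St _ β _ _ (2286 * 32) _ _ _ _ _ _ _ _ := s.rnz (i := 73152) g r13_58_0 ⟨by norm_num, c⟩
  have s : St _ β _ _ (2286 * 32) _ _ _ _ _ _ _ _ := s.rnz (i := 73152) g r13_58_1 ⟨by norm_num, c⟩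
  have s : St _ β _ _ (2286 * 32) _ _ _ _ _ _ _ _ := s.rnz (i := 73152) g r13_58_2 ⟨by norm_num, c⟩
  have s : St _ β _ _ (2286 * 32) _ _ _ _ _ _ _ _ := s.rnz (i := 73152) g r13_58_3 ⟨by norm_num, c⟩
  have s : St _ β _ _ (2286 * 32) _ _ _ _ _ _ _ _ := s.rnz (i := 73152) g r13_58_4 ⟨by norm_num, c⟩
  have s : St _ β _ _ (2286 * 32) _ _ _ _ _ _ _ _ := s.rnz (i := 73152) g r13_58_5 ⟨by norm_num, c⟩
  have s : St _ β _ _ (2286 * 32) _ _ _ _ _ _ _ _ := s.rnz (i := 73152) g r13_59_0 ⟨by norm_num, c⟩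
  have s : St _ β _ _ (2286 * 32) _ _ _ _ _ _ _ _ := s.rnz (i := 73152) g r13_59_1 ⟨by norm_num, c⟩
  have s : St _ β _ _ (2286 * 32) _ _ _ _ _ _ _ _ := s.rnz (i := 73152) g r13_59_2 ⟨by norm_num, c⟩
  have s : St _ β _ _ (2286 * 32) _ _ _ _ _ _ _ _ := s.rnz (i := 73152) g r13_59_3 ⟨by norm_num, c⟩
  have s : St _ β _ _ (2286 * 32) _ _ _ _ _ _ _ _ := s.rnz (i := 73152) g r13_59_4 ⟨by norm_num, c⟩
  have s : St _ β _ _ (2301 * 32) _ _ _ _ _ _ _ _ := s.ru g okX13_91 p13_59_5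
  have s : St _ β _ _ (2377 * 32) _ _ _ _ _ _ _ _ := s.ru g okX13_91 p13_60_0
  have s : St _ β _ _ (2423 * 32) _ _ _ _ _ _ _ _ := s.ru g okX13_91 p13_61_0
  have s : St _ β _ _ (2462 * 32) _ _ _ _ _ _ _ _ := s.ru g okX13_91 p13_62_0
  have s : St _ β _ _ (2496 * 32) _ _ _ _ _ _ _ _ := s.ru g okX13_91 p13_63_0
  have s : St _ β _ _ (2533 * 32) _ _ _ _ _ _ _ _ := s.ru g okX13_91 p13_64_0
  have s : St _ β _ _ (2570 * 32) _ _ _ _ _ _ _ _ := s.ru g okX13_91 p13_65_0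
  have s : St _ β _ _ (2611 * 32) _ _ _ _ _ _ _ _ := s.ru g okX13_91 p13_66_0
  have s : St _ β _ _ (2645 * 32) _ _ _ _ _ _ _ _ := s.ru g okX13_91 p13_67_0
  have s : St _ β _ _ (2676 * 32) _ _ _ _ _ _ _ _ := s.ru g okX13_91 p13_68_0
  have s : St _ β _ _ (2700 * 32) _ _ _ _ _ _ _ _ := s.ru g okX13_91 p13_69_0
  have s : St _ β _ _ (2730 * 32) _ _ _ _ _ _ _ _ := s.ru g okX13_91 p13_70_0
  have s : St _ β _ _ (2756 * 32) _ _ _ _ _ _ _ _ := s.ru g okX13_91 p13_71_0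
  have s : St _ β _ _ (2758 * 32) _ _ _ _ _ _ _ _ := s.ru g okX13_91 p13_72_0
  have s : St _ β _ _ (2758 * 32) _ _ _ _ _ _ _ _ := s.rnz (i := 88256) g r13_72_1 ⟨by norm_num, c⟩
  have s : St _ β _ _ (2758 * 32) _ _ _ _ _ _ _ _ := s.rnz (i := 88256) g r13_72_2 ⟨by norm_num, c⟩
  have s : St _ β _ _ (2758 * 32) _ _ _ _ _ _ _ _ := s.rnz (i := 88256) g r13_72_3 ⟨by norm_num, c⟩
  have s : St _ β _ _ (2758 * 32) _ _ _ _ _ _ _ _ := s.rnz (i := 88256) g r13_72_4 ⟨by norm_num, c⟩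
  have s : St _ β _ _ (2758 * 32) _ _ _ _ _ _ _ _ := s.rnz (i := 88256) g r13_72_5 ⟨by norm_num, c⟩
  have s : St _ β _ _ (2758 * 32) _ _ _ _ _ _ _ _ := s.rnz (i := 88256) g r13_72_6 ⟨by norm_num, c⟩
  have s : St _ β _ _ (2758 * 32) _ _ _ _ _ _ _ _ := s.rnz (i := 88256) g r13_73_0 ⟨by norm_num, c⟩
  have s : St _ β _ _ (2758 * 32) _ _ _ _ _ _ _ _ := s.rnz (i := 88256) g r13_73_1 ⟨by norm_num, c⟩
  have s : St _ β _ _ (2758 * 32) _ _ _ _ _ _ _ _ := s.rnz (i := 88256) g r13_73_2 ⟨by norm_num, c⟩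
  have s : St _ β _ _ (2758 * 32) _ _ _ _ _ _ _ _ := s.rnz (i := 88256) g r13_73_3 ⟨by norm_num, c⟩
  have s : St _ β _ _ (2758 * 32) _ _ _ _ _ _ _ _ := s.rnz (i := 88256) g r13_73_4 ⟨by norm_num, c⟩
  have s : St _ β _ _ (2826 * 32) _ _ _ _ _ _ _ _ := s.ru g okX13_107 p13_74_0
  have s : St _ β _ _ (2871 * 32) _ _ _ _ _ _ _ _ := s.ru g okX13_107 p13_75_0
  have s : St _ β _ _ (2906 * 32) _ _ _ _ _ _ _ _ := s.ru g okX13_107 p13_76_0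
  have s : St _ β _ _ (2935 * 32) _ _ _ _ _ _ _ _ := s.ru g okX13_107 p13_77_0
  have s : St _ β _ _ (2960 * 32) _ _ _ _ _ _ _ _ := s.ru g okX13_107 p13_78_0
  have s : St _ β _ _ (2967 * 32) _ _ _ _ _ _ _ _ := s.ru g okX13_107 p13_79_0
  have s : St _ β _ _ (2967 * 32) _ _ _ _ _ _ _ _ := s.rnz (i := 94944) g r13_79_3 ⟨by norm_num, c⟩
  have s : St _ β _ _ (2967 * 32) _ _ _ _ _ _ _ _ := s.rnz (i := 94944) g r13_79_4 ⟨by norm_num, c⟩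
  have s : St _ β _ _ (2967 * 32) _ _ _ _ _ _ _ _ := s.rnz (i := 94944) g r13_79_5 ⟨by norm_num, c⟩
  have s : St _ β _ _ (2967 * 32) _ _ _ _ _ _ _ _ := s.rnz (i := 94944) g r13_79_6 ⟨by norm_num, c⟩
  have s : St _ β _ _ (2967 * 32) _ _ _ _ _ _ _ _ := s.rnz (i := 94944) g r13_79_7 ⟨by norm_num, c⟩
  have s : St _ β _ _ (3035 * 32) _ _ _ _ _ _ _ _ := s.ru g okX13_114 p13_80_0
  have s : St _ β _ _ (3081 * 32) _ _ _ _ _ _ _ _ := s.ru g okX13_114 p13_81_0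
  have s : St _ β _ _ (3118 * 32) _ _ _ _ _ _ _ _ := s.ru g okX13_114 p13_82_0
  have s : St _ β _ _ (3141 * 32) _ _ _ _ _ _ _ _ := s.ru g okX13_114 p13_83_0
  have s : St _ β _ _ (3162 * 32) _ _ _ _ _ _ _ _ := s.ru g okX13_114 p13_84_0
  have s : St _ β _ _ (3162 * 32) _ _ _ _ _ _ _ _ := s.rnz (i := 101184) g r13_84_8 ⟨by norm_num, c⟩
  have s : St _ β _ _ (3162 * 32) _ _ _ _ _ _ _ _ := s.rnz (i := 101184) g r13_84_9 ⟨by norm_num, c⟩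
  have s : St _ β _ _ (3162 * 32) _ _ _ _ _ _ _ _ := s.rnz (i := 101184) g r13_84_10 ⟨by norm_num, c⟩
  have s : St _ β _ _ (3162 * 32) _ _ _ _ _ _ _ _ := s.rnz (i := 101184) g r13_85_0 ⟨by norm_num, c⟩
  have s : St _ β _ _ (3162 * 32) _ _ _ _ _ _ _ _ := s.rnz (i := 101184) g r13_85_1 ⟨by norm_num, c⟩
  have s : St _ β _ _ (3228 * 32) _ _ _ _ _ _ _ _ := s.ru g okX13_122 p13_85_2
  have s : St _ β _ _ (3294 * 32) _ _ _ _ _ _ _ _ := s.ru g okX13_122 p13_86_0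
  have s : St _ β _ _ (3343 * 32) _ _ _ _ _ _ _ _ := s.ru g okX13_122 p13_87_0
  have s : St _ β _ _ (3386 * 32) _ _ _ _ _ _ _ _ := s.ru g okX13_122 p13_88_0
  have s : St _ β _ _ (3420 * 32) _ _ _ _ _ _ _ _ := s.ru g okX13_122 p13_89_0
  have s : St _ β _ _ (3447 * 32) _ _ _ _ _ _ _ _ := s.ru g okX13_122 p13_90_0
  have s : St _ β _ _ (3458 * 32) _ _ _ _ _ _ _ _ := s.ru g okX13_122 p13_91_0
  have s : St _ β _ _ (3458 * 32) _ _ _ _ _ _ _ _ := s.rnz (i := 110656) g r13_91_6 ⟨by norm_num, c⟩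
  have s : St _ β _ _ (3458 * 32) _ _ _ _ _ _ _ _ := s.rnz (i := 110656) g r13_91_7 ⟨by norm_num, c⟩
  have s : St _ β _ _ (3458 * 32) _ _ _ _ _ _ _ _ := s.rnz (i := 110656) g r13_91_8 ⟨by norm_num, c⟩
  have s : St _ β _ _ (3458 * 32) _ _ _ _ _ _ _ _ := s.rnz (i := 110656) g r13_91_9 ⟨by norm_num, c⟩
  have s : St _ β _ _ (3458 * 32) _ _ _ _ _ _ _ _ := s.rnz (i := 110656) g r13_92_0 ⟨by norm_num, c⟩
  have s : St _ β _ _ (3458 * 32) _ _ _ _ _ _ _ _ := s.rnz (i := 110656) g r13_92_1 ⟨by norm_num, c⟩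
  have s : St _ β _ _ (3515 * 32) _ _ _ _ _ _ _ _ := s.ru g okX13_131 p13_92_2
  have s : St _ β _ _ (3579 * 32) _ _ _ _ _ _ _ _ := s.ru g okX13_131 p13_93_0
  have s : St _ β _ _ (3625 * 32) _ _ _ _ _ _ _ _ := s.ru g okX13_131 p13_94_0
  have s : St _ β _ _ (3661 * 32) _ _ _ _ _ _ _ _ := s.ru g okX13_131 p13_95_0
  have s : St _ β _ _ (3692 * 32) _ _ _ _ _ _ _ _ := s.ru g okX13_131 p13_96_0
  have s : St _ β _ _ (3702 * 32) _ _ _ _ _ _ _ _ := s.ru g okX13_131 p13_97_0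
  have s : St _ β _ _ (3702 * 32) _ _ _ _ _ _ _ _ := s.rnz (i := 118464) g r13_97_5 ⟨by norm_num, c⟩
  have s : St _ β _ _ (3702 * 32) _ _ _ _ _ _ _ _ := s.rnz (i := 118464) g r13_97_6 ⟨by norm_num, c⟩
  have s : St _ β _ _ (3702 * 32) _ _ _ _ _ _ _ _ := s.rnz (i := 118464) g r13_97_7 ⟨by norm_num, c⟩
  have s : St _ β _ _ (3702 * 32) _ _ _ _ _ _ _ _ := s.rnz (i := 118464) g r13_97_8 ⟨by norm_num, c⟩
  have s : St _ β _ _ (3702 * 32) _ _ _ _ _ _ _ _ := s.rnz (i := 118464) g r13_98_0 ⟨by norm_num, c⟩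
  have s : St _ β _ _ (3702 * 32) _ _ _ _ _ _ _ _ := s.rnz (i := 118464) g r13_98_1 ⟨by norm_num, c⟩
  have s : St _ β _ _ (3761 * 32) _ _ _ _ _ _ _ _ := s.ru g okX13_142 p13_98_2
  have s : St _ β _ _ (3828 * 32) _ _ _ _ _ _ _ _ := s.ru g okX13_142 p13_99_0
  have s : St _ β _ _ (3879 * 32) _ _ _ _ _ _ _ _ := s.ru g okX13_142 p13_100_0
  have s : St _ β _ _ (3927 * 32) _ _ _ _ _ _ _ _ := s.ru g okX13_142 p13_101_0
  have s : St _ β _ _ (3970 * 32) _ _ _ _ _ _ _ _ := s.ru g okX13_142 p13_102_0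
  have s : St _ β _ _ (4009 * 32) _ _ _ _ _ _ _ _ := s.ru g okX13_142 p13_103_0
  have s : St _ β _ _ (4037 * 32) _ _ _ _ _ _ _ _ := s.ru g okX13_142 p13_104_0
  have s : St _ β _ _ (4063 * 32) _ _ _ _ _ _ _ _ := s.ru g okX13_142 p13_105_0
  have s : St _ β _ _ (4081 * 32) _ _ _ _ _ _ _ _ := s.ru g okX13_142 p13_106_0
  have s : St _ β _ _ (4081 * 32) _ _ _ _ _ _ _ _ := s.rnz (i := 130592) g r13_106_8 ⟨by norm_num, c⟩
  have s : St _ β _ _ (4081 * 32) _ _ _ _ _ _ _ _ := s.rnz (i := 130592) g r13_106_9 ⟨by norm_num, c⟩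
  have s : St _ β _ _ (4081 * 32) _ _ _ _ _ _ _ _ := s.rnz (i := 130592) g r13_107_0 ⟨by norm_num, c⟩
  have s : St _ β _ _ (4081 * 32) _ _ _ _ _ _ _ _ := s.rnz (i := 130592) g r13_107_1 ⟨by norm_num, c⟩
  have s : St _ β _ _ (4081 * 32) _ _ _ _ _ _ _ _ := s.rnz (i := 130592) g r13_107_2 ⟨by norm_num, c⟩
  have s : St _ β _ _ (4081 * 32) _ _ _ _ _ _ _ _ := s.rnz (i := 130592) g r13_107_3 ⟨by norm_num, c⟩
  have s : St _ β _ _ (4081 * 32) _ _ _ _ _ _ _ _ := s.rnz (i := 130592) g r13_107_4 ⟨by norm_num, c⟩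
  have s : St _ β _ _ (4081 * 32) _ _ _ _ _ _ _ _ := s.rnz (i := 130592) g r13_107_5 ⟨by norm_num, c⟩
  have s : St _ β _ _ (4081 * 32) _ _ _ _ _ _ _ _ := s.rnz (i := 130592) g r13_108_0 ⟨by norm_num, c⟩
  have s : St _ β _ _ (4081 * 32) _ _ _ _ _ _ _ _ := s.rnz (i := 130592) g r13_108_1 ⟨by norm_num, c⟩
  have s : St _ β _ _ (4081 * 32) _ _ _ _ _ _ _ _ := s.rnz (i := 130592) g r13_108_2 ⟨by norm_num, c⟩
  have s : St _ β _ _ (4081 * 32) _ _ _ _ _ _ _ _ := s.rnz (i := 130592) g r13_108_3 ⟨by norm_num, c⟩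
  have s : St _ β _ _ (4081 * 32) _ _ _ _ _ _ _ _ := s.rnz (i := 130592) g r13_108_4 ⟨by norm_num, c⟩
  have s : St _ β _ H13_1 (695 * 32) _ _ _ _ _ _ _ _ := s.cpy (i := 130592) cp13_1
  have s : St _ β _ _ (786 * 32) _ _ _ _ _ _ _ _ := s.ru g okX13_159 p13_109_0
  have s : St _ β _ _ (847 * 32) _ _ _ _ _ _ _ _ := s.ru g okX13_159 p13_110_0
  have s : St _ β _ _ (902 * 32) _ _ _ _ _ _ _ _ := s.ru g okX13_159 p13_111_0
  have s : St _ β _ _ (952 * 32) _ _ _ _ _ _ _ _ := s.ru g okX13_159 p13_112_0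
  have s : St _ β _ _ (996 * 32) _ _ _ _ _ _ _ _ := s.ru g okX13_159 p13_113_0
  have s : St _ β _ _ (1042 * 32) _ _ _ _ _ _ _ _ := s.ru g okX13_159 p13_114_0
  have s : St _ β _ _ (1079 * 32) _ _ _ _ _ _ _ _ := s.ru g okX13_159 p13_115_0
  have s : St _ β _ _ (1110 * 32) _ _ _ _ _ _ _ _ := s.ru g okX13_159 p13_116_0
  have s : St _ β _ _ (1125 * 32) _ _ _ _ _ _ _ _ := s.ru g okX13_159 p13_117_0
  have s : St _ β _ _ (1125 * 32) _ _ _ _ _ _ _ _ := s.rnz (i := 36000) g r13_117_5 ⟨by norm_num, c⟩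
  have s : St _ β _ _ (1125 * 32) _ _ _ _ _ _ _ _ := s.rnz (i := 36000) g r13_117_6 ⟨by norm_num, c⟩
  have s : St _ β _ _ (1125 * 32) _ _ _ _ _ _ _ _ := s.rnz (i := 36000) g r13_117_7 ⟨by norm_num, c⟩
  have s : St _ β _ _ (1125 * 32) _ _ _ _ _ _ _ _ := s.rnz (i := 36000) g r13_117_8 ⟨by norm_num, c⟩
  have s : St _ β _ _ (1125 * 32) _ _ _ _ _ _ _ _ := s.rnz (i := 36000) g r13_118_0 ⟨by norm_num, c⟩
  have s : St _ β _ _ (1125 * 32) _ _ _ _ _ _ _ _ := s.rnz (i := 36000) g r13_118_1 ⟨by norm_num, c⟩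
  have s : St _ β _ _ (1125 * 32) _ _ _ _ _ _ _ _ := s.rnz (i := 36000) g r13_118_2 ⟨by norm_num, c⟩
  have s : St _ β _ _ (1125 * 32) _ _ _ _ _ _ _ _ := s.rnz (i := 36000) g r13_118_3 ⟨by norm_num, c⟩
  have s : St _ β _ _ (1125 * 32) _ _ _ _ _ _ _ _ := s.rnz (i := 36000) g r13_118_4 ⟨by norm_num, c⟩
  have s : St _ β _ _ (1125 * 32) _ _ _ _ _ _ _ _ := s.rnz (i := 36000) g r13_118_5 ⟨by norm_num, c⟩
  have s : St _ β _ _ (1125 * 32) _ _ _ _ _ _ _ _ := s.rnz (i := 36000) g r13_119_0 ⟨by norm_num, c⟩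
  have s : St _ β _ _ (1125 * 32) _ _ _ _ _ _ _ _ := s.rnz (i := 36000) g r13_119_1 ⟨by norm_num, c⟩
  have s : St _ β _ _ (1125 * 32) _ _ _ _ _ _ _ _ := s.rnz (i := 36000) g r13_119_2 ⟨by norm_num, c⟩
  have s : St _ β _ _ (1125 * 32) _ _ _ _ _ _ _ _ := s.rnz (i := 36000) g r13_119_3 ⟨by norm_num, c⟩
  have s : St _ β _ _ (1125 * 32) _ _ _ _ _ _ _ _ := s.rnz (i := 36000) g r13_119_4 ⟨by norm_num, c⟩
  have s : St _ β _ _ (1125 * 32) _ _ _ _ _ _ _ _ := s.rnz (i := 36000) g r13_119_5 ⟨by norm_num, c⟩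
  have s : St _ β _ _ (1125 * 32) _ _ _ _ _ _ _ _ := s.rnz (i := 36000) g r13_120_0 ⟨by norm_num, c⟩
  have s : St _ β _ _ (1207 * 32) _ _ _ _ _ _ _ _ := s.ru g okX13_188 p13_120_1
  have s : St _ β _ _ (1269 * 32) _ _ _ _ _ _ _ _ := s.ru g okX13_188 p13_121_0
  have s : St _ β _ _ (1325 * 32) _ _ _ _ _ _ _ _ := s.ru g okX13_188 p13_122_0
  have s : St _ β _ _ (1373 * 32) _ _ _ _ _ _ _ _ := s.ru g okX13_188 p13_123_0
  have s : St _ β _ _ (1416 * 32) _ _ _ _ _ _ _ _ := s.ru g okX13_188 p13_124_0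
  have s : St _ β _ _ (1454 * 32) _ _ _ _ _ _ _ _ := s.ru g okX13_188 p13_125_0
  have s : St _ β _ _ (1486 * 32) _ _ _ _ _ _ _ _ := s.ru g okX13_188 p13_126_0
  have s : St _ β _ _ (1486 * 32) _ _ _ _ _ _ _ _ := s.rnz (i := 47552) g r13_126_11 ⟨by norm_num, c⟩
  have s : St _ β _ _ (1486 * 32) _ _ _ _ _ _ _ _ := s.rnz (i := 47552) g r13_126_12 ⟨by norm_num, c⟩
  have s : St _ β _ _ (1486 * 32) _ _ _ _ _ _ _ _ := s.rnz (i := 47552) g r13_127_0 ⟨by norm_num, c⟩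
  have s : St _ β _ _ (1486 * 32) _ _ _ _ _ _ _ _ := s.rnz (i := 47552) g r13_127_1 ⟨by norm_num, c⟩
  have s : St _ β _ _ (1486 * 32) _ _ _ _ _ _ _ _ := s.rnz (i := 47552) g r13_127_2 ⟨by norm_num, c⟩
  have s : St _ β _ _ (1486 * 32) _ _ _ _ _ _ _ _ := s.rnz (i := 47552) g r13_127_3 ⟨by norm_num, c⟩
  have s : St _ β _ _ (1486 * 32) _ _ _ _ _ _ _ _ := s.rnz (i := 47552) g r13_127_4 ⟨by norm_num, c⟩
  have s : St _ β _ _ (1486 * 32) _ _ _ _ _ _ _ _ := s.rnz (i := 47552) g r13_127_5 ⟨by norm_num, c⟩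
  have s : St _ β _ _ (1486 * 32) _ _ _ _ _ _ _ _ := s.rnz (i := 47552) g r13_128_0 ⟨by norm_num, c⟩
  have s : St _ β _ _ (1486 * 32) _ _ _ _ _ _ _ _ := s.rnz (i := 47552) g r13_128_1 ⟨by norm_num, c⟩
  have s : St _ β _ _ (1486 * 32) _ _ _ _ _ _ _ _ := s.rnz (i := 47552) g r13_128_2 ⟨by norm_num, c⟩
  have s : St _ β _ _ (1486 * 32) _ _ _ _ _ _ _ _ := s.rnz (i := 47552) g r13_128_3 ⟨by norm_num, c⟩
  have s : St _ β _ _ (1529 * 32) _ _ _ _ _ _ _ _ := s.ru g okX13_205 p13_128_4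
  have s : St _ β _ _ (1603 * 32) _ _ _ _ _ _ _ _ := s.ru g okX13_205 p13_129_0
  have s : St _ β _ _ (1665 * 32) _ _ _ _ _ _ _ _ := s.ru g okX13_205 p13_130_0
  have s : St _ β _ _ (1716 * 32) _ _ _ _ _ _ _ _ := s.ru g okX13_205 p13_131_0
  have s : St _ β _ _ (1759 * 32) _ _ _ _ _ _ _ _ := s.ru g okX13_205 p13_132_0
  have s : St _ β _ _ (1781 * 32) _ _ _ _ _ _ _ _ := s.ru g okX13_205 p13_133_0
  have s : St _ β _ _ (1781 * 32) _ _ _ _ _ _ _ _ := s.rnz (i := 56992) g r13_133_5 ⟨by norm_num, c⟩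
  have s : St _ β _ _ (1781 * 32) _ _ _ _ _ _ _ _ := s.rnz (i := 56992) g r13_133_6 ⟨by norm_num, c⟩
  have s : St _ β _ _ (1781 * 32) _ _ _ _ _ _ _ _ := s.rnz (i := 56992) g r13_133_7 ⟨by norm_num, c⟩
  have s : St _ β _ _ (1781 * 32) _ _ _ _ _ _ _ _ := s.rnz (i := 56992) g r13_133_8 ⟨by norm_num, c⟩
  have s : St _ β _ _ (1781 * 32) _ _ _ _ _ _ _ _ := s.rnz (i := 56992) g r13_134_0 ⟨by norm_num, c⟩
  have s : St _ β _ _ (1781 * 32) _ _ _ _ _ _ _ _ := s.rnz (i := 56992) g r13_134_1 ⟨by norm_num, c⟩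
  have s : St _ β _ _ (1781 * 32) _ _ _ _ _ _ _ _ := s.rnz (i := 56992) g r13_134_2 ⟨by norm_num, c⟩
  have s : St _ β _ _ (1781 * 32) _ _ _ _ _ _ _ _ := s.rnz (i := 56992) g r13_134_3 ⟨by norm_num, c⟩
  have s : St _ β _ _ (1781 * 32) _ _ _ _ _ _ _ _ := s.rnz (i := 56992) g r13_134_4 ⟨by norm_num, c⟩
  have s : St _ β _ _ (1781 * 32) _ _ _ _ _ _ _ _ := s.rnz (i := 56992) g r13_134_5 ⟨by norm_num, c⟩
  have s : St _ β _ _ (1781 * 32) _ _ _ _ _ _ _ _ := s.rnz (i := 56992) g r13_135_0 ⟨by norm_num, c⟩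
  have s : St _ β _ _ (1781 * 32) _ _ _ _ _ _ _ _ := s.rnz (i := 56992) g r13_135_1 ⟨by norm_num, c⟩
  have s : St _ β _ _ (1781 * 32) _ _ _ _ _ _ _ _ := s.rnz (i := 56992) g r13_135_2 ⟨by norm_num, c⟩
  have s : St _ β _ _ (1781 * 32) _ _ _ _ _ _ _ _ := s.rnz (i := 56992) g r13_135_3 ⟨by norm_num, c⟩
  have s : St _ β _ _ (1821 * 32) _ _ _ _ _ _ _ _ := s.ru g okX13_230 p13_135_4
  have s : St _ β _ _ (1899 * 32) _ _ _ _ _ _ _ _ := s.ru g okX13_230 p13_136_0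
  have s : St _ β _ _ (1940 * 32) _ _ _ _ _ _ _ _ := s.ru g okX13_230 p13_137_0
  have s : St _ β _ _ (1940 * 32) _ _ _ _ _ _ _ _ := s.rnz (i := 62080) g r13_137_11 ⟨by norm_num, c⟩
  have s : St _ β _ _ (1940 * 32) _ _ _ _ _ _ _ _ := s.rnz (i := 62080) g r13_137_12 ⟨by norm_num, c⟩
  have s : St _ β _ _ (1940 * 32) _ _ _ _ _ _ _ _ := s.rnz (i := 62080) g r13_138_0 ⟨by norm_num, c⟩
  have s : St _ β _ _ (1940 * 32) _ _ _ _ _ _ _ _ := s.rnz (i := 62080) g r13_138_1 ⟨by norm_num, c⟩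
  have s : St _ β _ _ (1940 * 32) _ _ _ _ _ _ _ _ := s.rnz (i := 62080) g r13_138_2 ⟨by norm_num, c⟩
  have s : St _ β _ _ (1940 * 32) _ _ _ _ _ _ _ _ := s.rnz (i := 62080) g r13_138_3 ⟨by norm_num, c⟩
  have s : St _ β _ _ (1940 * 32) _ _ _ _ _ _ _ _ := s.rnz (i := 62080) g r13_138_4 ⟨by norm_num, c⟩
  have s : St _ β _ _ (2009 * 32) _ _ _ _ _ _ _ _ := s.ru g okX13_244 p13_139_0
  have s : St _ β _ _ (2064 * 32) _ _ _ _ _ _ _ _ := s.ru g okX13_244 p13_140_0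
  have s : St _ β _ _ (2117 * 32) _ _ _ _ _ _ _ _ := s.ru g okX13_244 p13_141_0
  have s : St _ β _ _ (2117 * 32) _ _ _ _ _ _ _ _ := s.rnz (i := 67744) g r13_141_12 ⟨by norm_num, c⟩
  have s : St _ β _ _ (2117 * 32) _ _ _ _ _ _ _ _ := s.rnz (i := 67744) g r13_141_13 ⟨by norm_num, c⟩
  have s : St _ β _ _ (2117 * 32) _ _ _ _ _ _ _ _ := s.rnz (i := 67744) g r13_142_0 ⟨by norm_num, c⟩
  have s : St _ β _ _ (2117 * 32) _ _ _ _ _ _ _ _ := s.rnz (i := 67744) g r13_142_1 ⟨by norm_num, c⟩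
  have s : St _ β _ _ (2117 * 32) _ _ _ _ _ _ _ _ := s.rnz (i := 67744) g r13_142_2 ⟨by norm_num, c⟩
  have s : St _ β _ _ (2117 * 32) _ _ _ _ _ _ _ _ := s.rnz (i := 67744) g r13_142_3 ⟨by norm_num, c⟩
  have s : St _ β _ _ (2117 * 32) _ _ _ _ _ _ _ _ := s.rnz (i := 67744) g r13_142_4 ⟨by norm_num, c⟩
  have s : St _ β _ _ (2117 * 32) _ _ _ _ _ _ _ _ := s.rnz (i := 67744) g r13_142_5 ⟨by norm_num, c⟩
  have s : St _ β _ _ (2117 * 32) _ _ _ _ _ _ _ _ := s.rnz (i := 67744) g r13_143_0 ⟨by norm_num, c⟩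
  have s : St _ β _ _ (2117 * 32) _ _ _ _ _ _ _ _ := s.rnz (i := 67744) g r13_143_1 ⟨by norm_num, c⟩
  have s : St _ β _ _ (2117 * 32) _ _ _ _ _ _ _ _ := s.rnz (i := 67744) g r13_143_2 ⟨by norm_num, c⟩
  have s : St _ β _ _ (2117 * 32) _ _ _ _ _ _ _ _ := s.rnz (i := 67744) g r13_143_3 ⟨by norm_num, c⟩
  have s : St _ β _ _ (2117 * 32) _ _ _ _ _ _ _ _ := s.rnz (i := 67744) g r13_143_4 ⟨by norm_num, c⟩
  have s : St _ β _ _ (2117 * 32) _ _ _ _ _ _ _ _ := s.rnz (i := 67744) g r13_143_5 ⟨by norm_num, c⟩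
  have s : St _ β _ _ (2117 * 32) _ _ _ _ _ _ _ _ := s.rnz (i := 67744) g r13_144_0 ⟨by norm_num, c⟩
  have s : St _ β _ _ (2117 * 32) _ _ _ _ _ _ _ _ := s.rnz (i := 67744) g r13_144_1 ⟨by norm_num, c⟩
  have s : St _ β _ _ (2171 * 32) _ _ _ _ _ _ _ _ := s.ru g okX13_270 p13_144_2
  have s : St _ β _ _ (2179 * 32) _ _ _ _ _ _ _ _ := s.ru g okX13_270 p13_145_0
  have s : St _ β _ _ (2179 * 32) _ _ _ _ _ _ _ _ := s.rnz (i := 69728) g r13_145_3 ⟨by norm_num, c⟩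
  have s : St _ β _ _ (2179 * 32) _ _ _ _ _ _ _ _ := s.rnz (i := 69728) g r13_145_4 ⟨by norm_num, c⟩
  have s : St _ β _ _ (2179 * 32) _ _ _ _ _ _ _ _ := s.rnz (i := 69728) g r13_145_5 ⟨by norm_num, c⟩
  have s : St _ β _ _ (2203 * 32) _ _ _ _ _ _ _ _ := s.ru g okX13_276 p13_145_6
  have s : St _ β _ _ (2236 * 32) _ _ _ _ _ _ _ _ := s.ru g okX13_276 p13_146_0
  have s : St _ β _ _ (2236 * 32) _ _ _ _ _ _ _ _ := s.rnz (i := 71552) g r13_146_8 ⟨by norm_num, c⟩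
  have s : St _ β _ _ (2236 * 32) _ _ _ _ _ _ _ _ := s.rnz (i := 71552) g r13_146_9 ⟨by norm_num, c⟩
  have s : St _ β _ _ (2236 * 32) _ _ _ _ _ _ _ _ := s.rnz (i := 71552) g r13_146_10 ⟨by norm_num, c⟩
  have s : St _ β _ _ (2236 * 32) _ _ _ _ _ _ _ _ := s.rnz (i := 71552) g r13_147_0 ⟨by norm_num, c⟩
  have s : St _ β _ _ (2236 * 32) _ _ _ _ _ _ _ _ := s.rnz (i := 71552) g r13_147_1 ⟨by norm_num, c⟩
  have s : St _ β _ _ (2236 * 32) _ _ _ _ _ _ _ _ := s.rnz (i := 71552) g r13_147_2 ⟨by norm_num, c⟩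
  have s : St _ β _ _ (2236 * 32) _ _ _ _ _ _ _ _ := s.rnz (i := 71552) g r13_147_3 ⟨by norm_num, c⟩
  have s : St _ β _ _ (2274 * 32) _ _ _ _ _ _ _ _ := s.ru g okX13_287 p13_147_4
  have s : St _ β _ _ (2276 * 32) _ _ _ _ _ _ _ _ := s.ru g okX13_287 p13_148_0
  have s : St _ β _ _ (2276 * 32) _ _ _ _ _ _ _ _ := s.rnz (i := 72832) g r13_148_1 ⟨by norm_num, c⟩
  have s : St _ β _ _ (2276 * 32) _ _ _ _ _ _ _ _ := s.rnz (i := 72832) g r13_148_2 ⟨by norm_num, c⟩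
  have s : St _ β _ _ (2276 * 32) _ _ _ _ _ _ _ _ := s.rnz (i := 72832) g r13_148_3 ⟨by norm_num, c⟩
  have s : St _ β _ _ (2276 * 32) _ _ _ _ _ _ _ _ := s.rnz (i := 72832) g r13_148_4 ⟨by norm_num, c⟩
  have s : St _ β _ _ (2276 * 32) _ _ _ _ _ _ _ _ := s.rnz (i := 72832) g r13_148_5 ⟨by norm_num, c⟩
  exact s.out g (by decide +kernel)

theorem tab20 : tab FA FB D20 R20 4 = true := by decide +kernel

theorem seg20 : Seg ⟨FA, FB, FT, 72571, 10062, 40829, geo_ok⟩ 10062 9429 7800 10063 := fun _ E β ht h hb h' => by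
  letI : Geo := ⟨FA, FB, FT, 72571, 10062, 40829, geo_ok⟩
  have c : rd R20 35 = 9429 := by decide +kernel
  have g := tc_re (E := E) tab20 (ro := 10062) (C0 := 9429) (by decide +kernel) ht hb
  have s : St (E.re tab20) β 9429 H20_0 (0 * 32) _ X20_0 _ _ _ _ _ _ :=
    g.start H20_0 9429 1 (by decide +kernel) h h'
  have s : St _ β _ _ (45 * 32) _ _ _ _ _ _ _ _ := s.ru g okX20_0 p20_0_0
  have s : St _ β _ _ (45 * 32) _ _ _ _ _ _ _ _ := s.rnz (i := 1440) g r20_0_6 ⟨by norm_num, c⟩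
  have s : St _ β _ _ (81 * 32) _ _ _ _ _ _ _ _ := s.ru g okX20_0 p20_0_7
  have s : St _ β _ _ (81 * 32) _ _ _ _ _ _ _ _ := s.rnz (i := 2592) g r20_0_12 ⟨by norm_num, c⟩
  have s : St _ β _ _ (97 * 32) _ _ _ _ _ _ _ _ := s.ru g okX20_2 p20_0_13
  have s : St _ β _ _ (142 * 32) _ _ _ _ _ _ _ _ := s.ru g okX20_2 p20_1_0
  have s : St _ β _ _ (142 * 32) _ _ _ _ _ _ _ _ := s.rnz (i := 4544) g r20_1_7 ⟨by norm_num, c⟩
  have s : St _ β _ _ (142 * 32) _ _ _ _ _ _ _ _ := s.rnz (i := 4544) g r20_1_8 ⟨by norm_num, c⟩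
  have s : St _ β _ _ (161 * 32) _ _ _ _ _ _ _ _ := s.ru g okX20_4 p20_1_9
  have s : St _ β _ _ (195 * 32) _ _ _ _ _ _ _ _ := s.ru g okX20_4 p20_2_0
  have s : St _ β _ _ (195 * 32) _ _ _ _ _ _ _ _ := s.rnz (i := 6240) g r20_2_6 ⟨by norm_num, c⟩
  have s : St _ β _ _ (195 * 32) _ _ _ _ _ _ _ _ := s.rnz (i := 6240) g r20_2_7 ⟨by norm_num, c⟩
  have s : St _ β _ _ (195 * 32) _ _ _ _ _ _ _ _ := s.rnz (i := 6240) g r20_2_8 ⟨by norm_num, c⟩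
  have s : St _ β _ _ (234 * 32) _ _ _ _ _ _ _ _ := s.ru g okX20_11 p20_3_0
  have s : St _ β _ _ (234 * 32) _ _ _ _ _ _ _ _ := s.rnz (i := 7488) g r20_3_7 ⟨by norm_num, c⟩
  have s : St _ β _ _ (234 * 32) _ _ _ _ _ _ _ _ := s.rnz (i := 7488) g r20_3_8 ⟨by norm_num, c⟩
  have s : St _ β _ _ (234 * 32) _ _ _ _ _ _ _ _ := s.rnz (i := 7488) g r20_3_9 ⟨by norm_num, c⟩
  have s : St _ β _ _ (234 * 32) _ _ _ _ _ _ _ _ := s.rnz (i := 7488) g r20_4_0 ⟨by norm_num, c⟩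
  have s : St _ β _ _ (257 * 32) _ _ _ _ _ _ _ _ := s.ru g okX20_15 p20_4_1
  have s : St _ β _ _ (257 * 32) _ _ _ _ _ _ _ _ := s.rnz (i := 8224) g r20_4_5 ⟨by norm_num, c⟩
  have s : St _ β _ _ (257 * 32) _ _ _ _ _ _ _ _ := s.rnz (i := 8224) g r20_4_6 ⟨by norm_num, c⟩
  have s : St _ β _ _ (257 * 32) _ _ _ _ _ _ _ _ := s.rnz (i := 8224) g r20_4_7 ⟨by norm_num, c⟩
  have s : St _ β _ _ (267 * 32) _ _ _ _ _ _ _ _ := s.ru g okX20_23 p20_4_8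
  have s : St _ β _ _ (267 * 32) _ _ _ _ _ _ _ _ := s.rnz (i := 8544) g r20_4_10 ⟨by norm_num, c⟩
  have s : St _ β _ _ (276 * 32) _ _ _ _ _ _ _ _ := s.ru g okX20_25 p20_4_11
  have s : St _ β _ _ (276 * 32) _ _ _ _ _ _ _ _ := s.rnz (i := 8832) g r20_4_12 ⟨by norm_num, c⟩
  have s : St _ β _ _ (276 * 32) _ _ _ _ _ _ _ _ := s.rnz (i := 8832) g r20_4_13 ⟨by norm_num, c⟩
  have s : St _ β _ _ (276 * 32) _ _ _ _ _ _ _ _ := s.rnz (i := 8832) g r20_5_0 ⟨by norm_num, c⟩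
  have s : St _ β _ _ (284 * 32) _ _ _ _ _ _ _ _ := s.ru g okX20_28 p20_5_1
  have s : St _ β _ _ (284 * 32) _ _ _ _ _ _ _ _ := s.rnz (i := 9088) g r20_5_3 ⟨by norm_num, c⟩
  have s : St _ β _ _ (295 * 32) _ _ _ _ _ _ _ _ := s.ru g okX20_30 p20_5_4
  have s : St _ β _ _ (295 * 32) _ _ _ _ _ _ _ _ := s.rnz (i := 9440) g r20_5_6 ⟨by norm_num, c⟩
  have s : St _ β _ _ (295 * 32) _ _ _ _ _ _ _ _ := s.rnz (i := 9440) g r20_5_7 ⟨by norm_num, c⟩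
  have s : St _ β _ _ (304 * 32) _ _ _ _ _ _ _ _ := s.ru g okX20_33 p20_5_8
  have s : St _ β _ _ (304 * 32) _ _ _ _ _ _ _ _ := s.rnz (i := 9728) g r20_5_10 ⟨by norm_num, c⟩
  have s : St _ β _ _ (304 * 32) _ _ _ _ _ _ _ _ := s.rnz (i := 9728) g r20_6_0 ⟨by norm_num, c⟩
  have s : St _ β _ _ (305 * 32) _ _ _ _ _ _ _ _ := s.ru g okX20_37 p20_6_1
  have s : St _ β _ _ (305 * 32) _ _ _ _ _ _ _ _ := s.rnz (i := 9760) g r20_6_2 ⟨by norm_num, c⟩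
  have s : St _ β _ _ (307 * 32) _ _ _ _ _ _ _ _ := s.ru g okX20_39 p20_6_3
  have s : St _ β _ _ (307 * 32) _ _ _ _ _ _ _ _ := s.rnz (i := 9824) g r20_6_4 ⟨by norm_num, c⟩
  have s : St _ β _ _ (308 * 32) _ _ _ _ _ _ _ _ := s.ru g okX20_40 p20_6_5
  have s : St _ β _ _ (311 * 32) _ _ _ _ _ _ _ _ := s.ru g okX20_40 p20_6_6
  have s : St _ β _ _ (311 * 32) _ _ _ _ _ _ _ _ := s.rnz (i := 9952) g r20_6_7 ⟨by norm_num, c⟩
  have s : St _ β _ _ (312 * 32) _ _ _ _ _ _ _ _ := s.ru g okX20_41 p20_6_8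
  have s : St _ β _ _ (312 * 32) _ _ _ _ _ _ _ _ := s.rnz (i := 9984) g r20_6_9 ⟨by norm_num, c⟩
  have s : St _ β _ _ (315 * 32) _ _ _ _ _ _ _ _ := s.ru g okX20_41 p20_6_10
  have s : St _ β _ _ (315 * 32) _ _ _ _ _ _ _ _ := s.rnz (i := 10080) g r20_6_11 ⟨by norm_num, c⟩
  have s : St _ β _ _ (316 * 32) _ _ _ _ _ _ _ _ := s.ru g okX20_44 p20_6_12
  have s : St _ β _ _ (316 * 32) _ _ _ _ _ _ _ _ := s.rnz (i := 10112) g r20_6_13 ⟨by norm_num, c⟩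
  have s : St _ β _ _ (320 * 32) _ _ _ _ _ _ _ _ := s.ru g okX20_44 p20_6_14
  have s : St _ β _ _ (320 * 32) _ _ _ _ _ _ _ _ := s.rnz (i := 10240) g r20_6_15 ⟨by norm_num, c⟩
  have s : St _ β _ _ (320 * 32) _ _ _ _ _ _ _ _ := s.rnz (i := 10240) g r20_6_16 ⟨by norm_num, c⟩
  have s : St _ β _ _ (320 * 32) _ _ _ _ _ _ _ _ := s.rnz (i := 10240) g r20_7_0 ⟨by norm_num, c⟩
  exact s.out g (by decide +kernel)

theorem many : Many2 ⟨FA, FB, FT, 72571, 10062, 40829, geo_ok⟩ 10062 9429 :=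
  (((seg1.app seg2 (by norm_num)).app seg13 (by norm_num)).app seg20 (by norm_num)).many (by norm_num)

end

end Pool.Agent.MP_1037db_co.Q.F
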